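import Mathlib

/-!
Facts on the ternary Cantor set and the piecewise linear map `β` (a generator of Thompson's
group `F` acting on the Cantor set).
-/

set_option autoImplicit false

open Set

namespace Pool.Agent.V11191.MC

theorem c01 {x : ℝ} (h : x ∈ cantorSet) : 0 ≤ x ∧ x ≤ 1 := cantorSet_subset_unitInterval h

theorem c_cases {x : ℝ} (h : x ∈ cantorSet) :
    (∃ y ∈ cantorSet, x = y / 3) ∨ ∃ y ∈ cantorSet, x = (2 + y) / 3 := by
  rw [cantorSet_eq_union_halves] at h
  rcases h with ⟨y, hy, rfl⟩ | ⟨y, hy, rfl⟩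
  · exact Or.inl ⟨y, hy, rfl⟩
  · exact Or.inr ⟨y, hy, rfl⟩

theorem c_third {x : ℝ} (hx : x < 2) : x / 3 ∈ cantorSet ↔ x ∈ cantorSet := by
  constructor
  · intro h
    rcases c_cases h with ⟨y, hy, e⟩ | ⟨y, hy, e⟩
    · have : x = y := by linarith
      rwa [this]
    · have := (c01 hy).1
      exfalso; linarith
  · intro h
    rw [cantorSet_eq_union_halves]
    exact Or.inl ⟨x, h, rfl⟩

theorem c_third' {x : ℝ} (hx : -1 < x) : (2 + x) / 3 ∈ cantorSet ↔ x ∈ cantorSet := by
  constructor
  · intro h
    rcases c_cases h with ⟨y, hy, e⟩ | ⟨y, hy, e⟩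
    · have := (c01 hy).2
      exfalso; linarith
    · have : x = y := by linarith
      rwa [this]
  · intro h
    rw [cantorSet_eq_union_halves]
    exact Or.inr ⟨x, h, rfl⟩

theorem c_gap {x : ℝ} (h : x ∈ cantorSet) : x ≤ 1 / 3 ∨ 2 / 3 ≤ x := by
  rcases c_cases h with ⟨y, hy, e⟩ | ⟨y, hy, e⟩
  · left; have := (c01 hy).2; linarith
  · right; have := (c01 hy).1; linarith

theorem pre_symm (n : ℕ) : ∀ x : ℝ, x ∈ preCantorSet n → 1 - x ∈ preCantorSet n := by
  induction n with
  | zero =>
    intro x hx
    simp only [preCantorSet_zero, Set.mem_Icc] at hx ⊢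
    constructor <;> linarith [hx.1, hx.2]
  | succ n ih =>
    intro x hx
    rw [preCantorSet_succ] at hx ⊢
    rcases hx with ⟨y, hy, rfl⟩ | ⟨y, hy, rfl⟩
    · exact Or.inr ⟨1 - y, ih y hy, by ring⟩
    · exact Or.inl ⟨1 - y, ih y hy, by ring⟩

theorem c_symm {x : ℝ} : 1 - x ∈ cantorSet ↔ x ∈ cantorSet := by
  have key : ∀ x : ℝ, x ∈ cantorSet → 1 - x ∈ cantorSet := by
    intro x hx
    simp only [cantorSet, Set.mem_iInter] at hx ⊢
    exact fun n => pre_symm n x (hx n)
  constructor
  · intro h
    have := key _ h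
    simpa using this
  · exact key x

/-- the cylinder `[2/3, 7/9]` -/
theorem c_cyl {u : ℝ} (h0 : 0 ≤ u) (h1 : u ≤ 1) : 2 / 3 + u / 9 ∈ cantorSet ↔ u ∈ cantorSet := by
  have e : 2 / 3 + u / 9 = (2 + u / 3) / 3 := by ring
  rw [e, c_third' (by linarith), c_third (by linarith)]

theorem c_disc : IsTotallyDisconnected cantorSet := by
  rw [← totallyDisconnectedSpace_subtype_iff]
  exact cantorSetHomeomorphNatToBool.symm.totallyDisconnectedSpace

theorem c_hole {s t : ℝ} (h : s < t) : ∃ u, s < u ∧ u < t ∧ u ∉ cantorSet := by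
  by_contra hc
  push Not at hc
  have h1 : Set.Icc (s + (t - s) / 3) (s + 2 * (t - s) / 3) ⊆ cantorSet := by
    intro u hu
    exact hc u (by linarith [hu.1]) (by linarith [hu.2])
  have h2 := c_disc _ h1 isPreconnected_Icc
  have h3 : s + (t - s) / 3 = s + 2 * (t - s) / 3 :=
    h2 ⟨le_rfl, by linarith⟩ ⟨by linarith, le_rfl⟩
  linarith

/-- the piecewise linear map -/
noncomputable def bet (x : ℝ) : ℝ := min x (max (x / 3) (max (x - 4 / 9) (3 * x - 2)))

/-- its inverse -/
noncomputable def beti (y : ℝ) : ℝ := max y (min (3 * y) (min (y + 4 / 9) ((y + 2) / 3)))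

theorem bet_lo {x : ℝ} (h : x ≤ 0) : bet x = x := by
  unfold bet
  rw [min_eq_left]
  exact le_max_of_le_left (by linarith)

theorem bet_hi {x : ℝ} (h : 1 ≤ x) : bet x = x := by
  unfold bet
  rw [min_eq_left]
  exact le_max_of_le_right (le_max_of_le_right (by linarith))

theorem bet_a {x : ℝ} (h0 : 0 ≤ x) (h : x ≤ 2 / 3) : bet x = x / 3 := by
  unfold bet
  rw [max_eq_left, min_eq_right]
  · linarith
  · exact max_le (by linarith) (by linarith)

theorem bet_b {x : ℝ} (h0 : 2 / 3 ≤ x) (h : x ≤ 7 / 9) : bet x = x - 4 / 9 := by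
  unfold bet
  rw [max_eq_left (a := x - 4 / 9) (by linarith), max_eq_right (by linarith),
    min_eq_right (by linarith)]

theorem bet_c {x : ℝ} (h0 : 7 / 9 ≤ x) (h : x ≤ 1) : bet x = 3 * x - 2 := by
  unfold bet
  rw [max_eq_right (a := x - 4 / 9) (by linarith), max_eq_right (by linarith),
    min_eq_right (by linarith)]

theorem bet_cont : Continuous bet := by unfold bet; fun_prop

theorem beti_cont : Continuous beti := by unfold beti; fun_prop

theorem beti_bet (x : ℝ) : beti (bet x) = x := by
  rcases le_total x 0 with h | h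
  · rw [bet_lo h]; unfold beti
    rw [max_eq_left]
    exact (min_le_left _ _).trans (by linarith)
  rcases le_total x (2 / 3) with h2 | h2
  · rw [bet_a h h2]; unfold beti
    rw [min_eq_left (a := 3 * (x / 3)) (le_min (by linarith) (by linarith)),
      max_eq_right (by linarith)]
    ring
  rcases le_total x (7 / 9) with h3 | h3
  · rw [bet_b h2 h3]; unfold beti
    rw [min_eq_left (a := x - 4 / 9 + 4 / 9) (by linarith), min_eq_right (by linarith),
      max_eq_right (by linarith)]
    ring
  rcases le_total x 1 with h4 | h4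
  · rw [bet_c h3 h4]; unfold beti
    rw [min_eq_right (a := 3 * x - 2 + 4 / 9) (by linarith), min_eq_right (by linarith),
      max_eq_right (by linarith)]
    ring
  · rw [bet_hi h4]; unfold beti
    rw [max_eq_left]
    exact (min_le_right _ _).trans ((min_le_right _ _).trans (by linarith))

theorem bet_beti (y : ℝ) : bet (beti y) = y := by
  rcases le_total y 0 with h | h
  · have e : beti y = y := by
      unfold beti
      rw [max_eq_left]
      exact (min_le_left _ _).trans (by linarith)
    rw [e, bet_lo h]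
  rcases le_total y (2 / 9) with h2 | h2
  · have e : beti y = 3 * y := by
      unfold beti
      rw [min_eq_left (a := 3 * y) (le_min (by linarith) (by linarith)),
        max_eq_right (by linarith)]
    rw [e, bet_a (by linarith) (by linarith)]; ring
  rcases le_total y (1 / 3) with h3 | h3
  · have e : beti y = y + 4 / 9 := by
      unfold beti
      rw [min_eq_left (a := y + 4 / 9) (by linarith), min_eq_right (by linarith),
        max_eq_right (by linarith)]
    rw [e, bet_b (by linarith) (by linarith)]; ring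
  rcases le_total y 1 with h4 | h4
  · have e : beti y = (y + 2) / 3 := by
      unfold beti
      rw [min_eq_right (a := y + 4 / 9) (by linarith), min_eq_right (by linarith),
        max_eq_right (by linarith)]
    rw [e, bet_c (by linarith) (by linarith)]; ring
  · have e : beti y = y := by
      unfold beti
      rw [max_eq_left]
      exact (min_le_right _ _).trans ((min_le_right _ _).trans (by linarith))
    rw [e, bet_hi h4]

theorem bet_mono : Monotone bet := by
  intro x y h
  unfold bet
  exact min_le_min h (max_le_max (by linarith) (max_le_max (by linarith) (by linarith)))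

theorem bet_inj : Function.Injective bet := fun x y h => by
  rw [← beti_bet x, h, beti_bet]

theorem bet_smono : StrictMono bet := bet_mono.strictMono_of_injective bet_inj

theorem bet_le (x : ℝ) : bet x ≤ x := min_le_left _ _

theorem le_bet (x : ℝ) : x - 1 ≤ bet x := by
  unfold bet
  exact le_min (by linarith) (le_max_of_le_right (le_max_of_le_left (by linarith)))

theorem c_bet {x : ℝ} : bet x ∈ cantorSet ↔ x ∈ cantorSet := by
  rcases le_or_gt x 0 with h | h
  · rw [bet_lo h]
  rcases le_or_gt x (2 / 3) with h2 | h2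
  · rw [bet_a h.le h2, c_third (by linarith)]
  rcases le_or_gt x (7 / 9) with h3 | h3
  · rw [bet_b h2.le h3]
    have e1 : x - 4 / 9 = (2 + (9 * x - 6)) / 3 / 3 := by ring
    have e2 : x = (2 + (9 * x - 6) / 3) / 3 := by ring
    rw [e1, c_third (by linarith), c_third' (by linarith)]
    conv_rhs => rw [e2]
    rw [c_third' (by linarith), c_third (by linarith)]
  rcases le_or_gt x 1 with h4 | h4
  · rw [bet_c h3.le h4]
    have e2 : x = (2 + (3 * x - 2)) / 3 := by ring
    conv_rhs => rw [e2]
    rw [c_third' (by linarith)]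
  · rw [bet_hi h4.le]

/-- `β` as a homeomorphism of the line -/
noncomputable def betH : ℝ ≃ₜ ℝ where
  toFun := bet
  invFun := beti
  left_inv := beti_bet
  right_inv := bet_beti
  continuous_toFun := bet_cont
  continuous_invFun := beti_cont

/-- the copy of `β` in the cylinder `[2/3, 7/9]` -/
noncomputable def gam (x : ℝ) : ℝ := 2 / 3 + bet (9 * (x - 2 / 3)) / 9

theorem gam_cont : Continuous gam := by
  unfold gam
  have := bet_cont
  fun_prop

theorem gam_smono : StrictMono gam := by
  intro x y h
  unfold gam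
  have := bet_smono (show 9 * (x - 2 / 3) < 9 * (y - 2 / 3) by linarith)
  linarith

theorem gam_le (x : ℝ) : gam x ≤ x := by
  have := bet_le (9 * (x - 2 / 3))
  unfold gam; linarith

theorem le_gam (x : ℝ) : x - 1 ≤ gam x := by
  have := le_bet (9 * (x - 2 / 3))
  unfold gam; linarith

theorem gam_lo {x : ℝ} (h : x ≤ 2 / 3) : gam x = x := by
  unfold gam; rw [bet_lo (by linarith)]; ring

theorem gam_hi {x : ℝ} (h : 7 / 9 ≤ x) : gam x = x := by
  unfold gam; rw [bet_hi (by linarith)]; ring

theorem gam_u (u : ℝ) : gam (2 / 3 + u / 9) = 2 / 3 + bet u / 9 := by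
  unfold gam; congr 2; congr 1; ring

theorem bet_Icc {u : ℝ} (h0 : 0 ≤ u) (h1 : u ≤ 1) : 0 ≤ bet u ∧ bet u ≤ 1 := by
  constructor
  · have := bet_mono h0; rwa [bet_lo le_rfl] at this
  · have := bet_mono h1; rwa [bet_hi le_rfl] at this

theorem c_gam {x : ℝ} : gam x ∈ cantorSet ↔ x ∈ cantorSet := by
  rcases le_or_gt x (2 / 3) with h | h
  · rw [gam_lo h]
  rcases le_or_gt x (7 / 9) with h2 | h2
  · obtain ⟨u, rfl⟩ : ∃ u, x = 2 / 3 + u / 9 := ⟨9 * (x - 2 / 3), by ring⟩
    have h0 : 0 ≤ u := by linarith
    have h1 : u ≤ 1 := by linarith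
    have hb := bet_Icc h0 h1
    rw [gam_u, c_cyl hb.1 hb.2, c_cyl h0 h1, c_bet]
  · rw [gam_hi h2.le]

end Pool.Agent.V11191.MC
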