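import Mathlib

/-!
Mapping class groups of the complement of a closed set in the plane.
-/

set_option autoImplicit false

open scoped unitInterval

namespace Pool.Agent.V11191.MC

/-- the surface `ℂ ∖ C` -/
abbrev Surf (C : Set ℂ) : Type := {z : ℂ // z ∉ C}

/-- `Homeo₀(X)`: the homeomorphisms of `X` isotopic to the identity; an isotopy is a level
preserving homeomorphism of `[0,1] × X` -/
def Homeo0 (X : Type) [TopologicalSpace X] : Subgroup (X ≃ₜ X) where
  carrier := {f | ∃ Φ : (I × X) ≃ₜ (I × X), (∀ p, (Φ p).1 = p.1) ∧ (∀ x, Φ (0, x) = (0, x)) ∧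
    ∀ x, Φ (1, x) = (1, f x)}
  one_mem' := ⟨Homeomorph.refl _, fun _ => rfl, fun _ => rfl, fun _ => rfl⟩
  mul_mem' := by
    rintro f g ⟨Φ, h1, h2, h3⟩ ⟨Ψ, k1, k2, k3⟩
    refine ⟨Ψ.trans Φ, fun p => ?_, fun x => ?_, fun x => ?_⟩
    · simp only [Homeomorph.trans_apply, h1, k1]
    · simp only [Homeomorph.trans_apply, k2, h2]
    · simp only [Homeomorph.trans_apply, k3, h3]
      rfl
  inv_mem' := by
    rintro f ⟨Φ, h1, h2, h3⟩
    refine ⟨Φ.symm, fun p => ?_, fun x => ?_, fun x => ?_⟩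
    · rw [← h1 (Φ.symm p), Homeomorph.apply_symm_apply]
    · rw [Homeomorph.symm_apply_eq, h2]
    · rw [Homeomorph.symm_apply_eq, h3]
      simp

instance Homeo0_normal (X : Type) [TopologicalSpace X] : (Homeo0 X).Normal where
  conj_mem := by
    rintro f ⟨Φ, h1, h2, h3⟩ g
    refine ⟨(((Homeomorph.refl I).prodCongr g⁻¹).trans Φ).trans
      ((Homeomorph.refl I).prodCongr g), fun p => ?_, fun x => ?_, fun x => ?_⟩
    · simp [h1]
    · simp [h2]
    · simp [h3]

/-- the extended mapping class group `Homeo(X) / Homeo₀(X)` -/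
abbrev MapE (X : Type) [TopologicalSpace X] : Type := (X ≃ₜ X) ⧸ Homeo0 X

/-- `f` preserves the orientation of the surface `ℂ ∖ C`: on some closed round disc of the
surface it is isotopic, through embeddings into the plane, to the inclusion -/
def OrPres {C : Set ℂ} (f : Surf C ≃ₜ Surf C) : Prop :=
  ∃ (z₀ : ℂ) (r : ℝ) (_ : 0 < r) (hD : ∀ z ∈ Metric.closedBall z₀ r, z ∉ C)
    (Ψ : I × Metric.closedBall z₀ r → ℂ), Continuous Ψ ∧
      (∀ t, Function.Injective fun z => Ψ (t, z)) ∧ (∀ z, Ψ (0, z) = z) ∧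
      ∀ z, Ψ (1, z) = f ⟨z, hD z z.2⟩

/-- the homeomorphisms of the plane preserving `C` -/
def Stab (C : Set ℂ) : Subgroup (ℂ ≃ₜ ℂ) where
  carrier := {F | ∀ z, F z ∈ C ↔ z ∈ C}
  one_mem' := fun _ => Iff.rfl
  mul_mem' := by
    intro F G hF hG z
    simp only [Set.mem_ofPred_eq] at hF hG
    rw [Homeomorph.mul_apply, hF, hG]
  inv_mem' := by
    intro F hF z
    simp only [Set.mem_ofPred_eq] at hF
    rw [Homeomorph.inv_apply, ← hF, Homeomorph.apply_symm_apply]

/-- restriction to the surface -/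
noncomputable def resH (C : Set ℂ) : Stab C →* (Surf C ≃ₜ Surf C) where
  toFun F := F.1.subtype fun z => not_congr (F.2 z).symm
  map_one' := by ext z; rfl
  map_mul' F G := by ext z; rfl

theorem resH_apply (C : Set ℂ) (F : Stab C) (z : Surf C) : (resH C F z : ℂ) = F.1 z := rfl

/-- the mapping class of a homeomorphism of the plane preserving `C` -/
noncomputable def cls (C : Set ℂ) : Stab C →* MapE (Surf C) := (QuotientGroup.mk' _).comp (resH C)

end Pool.Agent.V11191.MC
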