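import Mathlib
import Pool.Agent.V11191.MC.Cant
import Pool.Agent.V11191.MC.Defs

/-!
Homeomorphisms of the plane: shears along the real axis with a cutoff, and half twists.
-/

set_option autoImplicit false

open Set Filter Topology

namespace Pool.Agent.V11191.MC

/-- the cutoff -/
noncomputable def ct (k : ℝ) (y : ℝ) : ℝ := max 0 (min 1 (k - |y|))

theorem ct_nonneg (k y : ℝ) : 0 ≤ ct k y := le_max_left _ _

theorem ct_le (k y : ℝ) : ct k y ≤ 1 := max_le zero_le_one (min_le_left _ _)

theorem ct_cont (k : ℝ) : Continuous (ct k) := by unfold ct; fun_prop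

theorem ct_one {k y : ℝ} (h : |y| ≤ k - 1) : ct k y = 1 := by
  unfold ct
  rw [min_eq_left (by linarith), max_eq_right zero_le_one]

theorem ct_zero {k y : ℝ} (h : k ≤ |y|) : ct k y = 0 := by
  unfold ct
  exact max_eq_left ((min_le_right _ _).trans (by linarith))

/-- the shear with cutoff -/
noncomputable def sh (a : ℝ → ℝ) (k : ℝ) (z : ℂ) : ℂ :=
  ⟨z.re + ct k z.im * (a z.re - z.re), z.im⟩

section

variable {a : ℝ → ℝ} (ha : Continuous a) (hs : StrictMono a) (hle : ∀ x, a x ≤ x)
  (hge : ∀ x, x - 1 ≤ a x) (k : ℝ)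

theorem sh_cont (ha : Continuous a) : Continuous (sh a k) := by
  have h1 : sh a k = fun z => ((z.re + ct k z.im * (a z.re - z.re) : ℝ) : ℂ) +
      (z.im : ℂ) * Complex.I := by
    funext z
    apply Complex.ext <;> simp [sh]
  rw [h1]
  have := ct_cont k
  fun_prop

include hs in
theorem sh_fib (t : ℝ) (h0 : 0 ≤ t) (h1 : t ≤ 1) : StrictMono fun x : ℝ => x + t * (a x - x) := by
  intro x y h
  have := hs h
  show x + t * (a x - x) < y + t * (a y - y)
  rcases h1.lt_or_eq with h2 | h2
  · nlinarith [mul_pos (sub_pos.2 h2) (sub_pos.2 h), mul_nonneg h0 (sub_pos.2 this).le]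
  · subst h2; linarith

include ha hle hge in
theorem sh_fib_surj (t : ℝ) (h0 : 0 ≤ t) (h1 : t ≤ 1) :
    Function.Surjective fun x : ℝ => x + t * (a x - x) := by
  have hb : ∀ x, x - 1 ≤ x + t * (a x - x) ∧ x + t * (a x - x) ≤ x := by
    intro x
    have e1 := hle x
    have e2 := hge x
    constructor <;> nlinarith
  apply Continuous.surjective (by fun_prop)
  · exact tendsto_atTop_mono (fun x => (hb x).1) (tendsto_atTop_add_const_right _ (-1) tendsto_id)
  · exact tendsto_atBot_mono (fun x => (hb x).2) tendsto_id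

include ha hs hle hge in
theorem sh_bij : Function.Bijective (sh a k) := by
  constructor
  · intro z w h
    have him : z.im = w.im := by
      have : (sh a k z).im = (sh a k w).im := by rw [h]
      exact this
    have hre : z.re + ct k z.im * (a z.re - z.re) = w.re + ct k w.im * (a w.re - w.re) := by
      have : (sh a k z).re = (sh a k w).re := by rw [h]
      exact this
    rw [him] at hre
    exact Complex.ext ((sh_fib hs _ (ct_nonneg k _) (ct_le k _)).injective hre) him
  · intro w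
    obtain ⟨x, hx⟩ := sh_fib_surj ha hle hge (ct k w.im) (ct_nonneg k _) (ct_le k _) w.re
    exact ⟨⟨x, w.im⟩, Complex.ext hx rfl⟩

include hle hge in
theorem sh_near (z : ℂ) : ‖sh a k z - z‖ ≤ 1 := by
  have e : sh a k z - z = ((ct k z.im * (a z.re - z.re) : ℝ) : ℂ) := by
    apply Complex.ext <;> simp [sh]
  rw [e, Complex.norm_real, Real.norm_eq_abs, abs_le]
  have e1 := hle z.re
  have e2 := hge z.re
  have e3 := ct_nonneg k z.im
  have e4 := ct_le k z.im
  constructor <;> nlinarith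

include ha hle hge in
omit hs in
theorem sh_closed : IsClosedMap (sh a k) := by
  have : IsProperMap (sh a k) := by
    rw [isProperMap_iff_tendsto_cocompact]
    refine ⟨sh_cont k ha, ?_⟩
    rw [← Metric.cobounded_eq_cocompact, tendsto_norm_atTop_iff_cobounded.symm]
    have h1 : ∀ z : ℂ, ‖z‖ - 1 ≤ ‖sh a k z‖ := by
      intro z
      have := norm_sub_norm_le z (sh a k z)
      have h2 := sh_near hle hge k z
      rw [norm_sub_rev] at h2
      linarith
    exact tendsto_atTop_mono h1
      (tendsto_atTop_add_const_right _ (-1) tendsto_norm_cobounded_atTop)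
  exact this.isClosedMap

/-- the shear as a homeomorphism -/
noncomputable def shH : ℂ ≃ₜ ℂ :=
  (Equiv.ofBijective _ (sh_bij ha hs hle hge k)).toHomeomorphOfContinuousClosed
    (sh_cont k ha) (sh_closed ha hle hge k)

theorem shH_apply (z : ℂ) : shH ha hs hle hge k z = sh a k z := rfl

end

/-- the shear of `β` -/
noncomputable def gB : ℂ ≃ₜ ℂ := shH bet_cont bet_smono bet_le le_bet 3

/-- the shear of `γ` -/
noncomputable def gC : ℂ ≃ₜ ℂ := shH gam_cont gam_smono gam_le le_gam 2

/-- the rotation number of the half twist -/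
noncomputable def rot (z : ℂ) : ℂ := z * Complex.exp ((Real.pi * ct 2 ‖z‖ : ℝ) * Complex.I)

/-- inverse -/
noncomputable def roti (z : ℂ) : ℂ := z * Complex.exp (-((Real.pi * ct 2 ‖z‖ : ℝ) * Complex.I))

theorem norm_rot (z : ℂ) : ‖rot z‖ = ‖z‖ := by
  unfold rot
  rw [norm_mul, Complex.norm_exp_ofReal_mul_I, mul_one]

theorem norm_roti (z : ℂ) : ‖roti z‖ = ‖z‖ := by
  unfold roti
  rw [← neg_mul, ← Complex.ofReal_neg, norm_mul, Complex.norm_exp_ofReal_mul_I, mul_one]

theorem roti_rot (z : ℂ) : roti (rot z) = z := by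
  have h := norm_rot z
  have e : roti (rot z) = rot z * Complex.exp (-((Real.pi * ct 2 ‖rot z‖ : ℝ) * Complex.I)) := rfl
  rw [e, h]
  unfold rot
  rw [mul_assoc, ← Complex.exp_add, add_neg_cancel, Complex.exp_zero, mul_one]

theorem rot_roti (z : ℂ) : rot (roti z) = z := by
  have h := norm_roti z
  have e : rot (roti z) = roti z * Complex.exp ((Real.pi * ct 2 ‖roti z‖ : ℝ) * Complex.I) := rfl
  rw [e, h]
  unfold roti
  rw [mul_assoc, ← Complex.exp_add, neg_add_cancel, Complex.exp_zero, mul_one]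

/-- the half twist as a homeomorphism -/
noncomputable def rotH : ℂ ≃ₜ ℂ where
  toFun := rot
  invFun := roti
  left_inv := roti_rot
  right_inv := rot_roti
  continuous_toFun := by
    unfold rot
    have := ct_cont 2
    fun_prop
  continuous_invFun := by
    unfold roti
    have := ct_cont 2
    fun_prop

theorem rot_in {z : ℂ} (h : ‖z‖ ≤ 1) : rot z = -z := by
  unfold rot
  rw [ct_one (by rw [abs_of_nonneg (norm_nonneg z)]; linarith), mul_one, Complex.exp_pi_mul_I]
  ring

theorem rot_out {z : ℂ} (h : 2 ≤ ‖z‖) : rot z = z := by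
  unfold rot
  rw [ct_zero (by rw [abs_of_nonneg (norm_nonneg z)]; exact h)]
  simp

/-- the affine change of the first coordinate -/
noncomputable def afH (a b : ℝ) (ha : a ≠ 0) : ℂ ≃ₜ ℂ where
  toFun z := ((a * z.re + b : ℝ) : ℂ) + (z.im : ℂ) * Complex.I
  invFun z := (((z.re - b) / a : ℝ) : ℂ) + (z.im : ℂ) * Complex.I
  left_inv z := by
    apply Complex.ext
    · simp; field_simp
    · simp
  right_inv z := by
    apply Complex.ext
    · simp; field_simp; ring
    · simp
  continuous_toFun := by fun_prop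
  continuous_invFun := by fun_prop

theorem afH_re (a b : ℝ) (ha : a ≠ 0) (z : ℂ) : (afH a b ha z).re = a * z.re + b := by
  simp [afH]

theorem afH_im (a b : ℝ) (ha : a ≠ 0) (z : ℂ) : (afH a b ha z).im = z.im := by
  simp [afH]

/-- the half twist of the segment `{|a x + b| ≤ 1}` -/
noncomputable def twH (a b : ℝ) (ha : a ≠ 0) : ℂ ≃ₜ ℂ :=
  (afH a b ha)⁻¹ * rotH * afH a b ha

theorem twH_eq (a b : ℝ) (ha : a ≠ 0) (z : ℂ) :
    afH a b ha (twH a b ha z) = rot (afH a b ha z) := by
  unfold twH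
  simp only [Homeomorph.mul_apply, Homeomorph.inv_apply, Homeomorph.apply_symm_apply]
  rfl

theorem twH_out {a b : ℝ} {ha : a ≠ 0} {z : ℂ} (h : 2 ≤ ‖afH a b ha z‖) : twH a b ha z = z := by
  apply (afH a b ha).injective
  rw [twH_eq, rot_out h]

theorem twH_in {a b : ℝ} {ha : a ≠ 0} {z : ℂ} (h : ‖afH a b ha z‖ ≤ 1) :
    (twH a b ha z).re = -z.re - 2 * b / a ∧ (twH a b ha z).im = -z.im := by
  have h1 := twH_eq a b ha z
  rw [rot_in h] at h1
  have h2 := congrArg Complex.re h1
  have h3 := congrArg Complex.im h1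
  rw [afH_re, Complex.neg_re, afH_re] at h2
  rw [afH_im, Complex.neg_im, afH_im] at h3
  refine ⟨?_, h3⟩
  field_simp
  linarith

/-- the Cantor set on the real axis -/
def CC : Set ℂ := {z | z.im = 0 ∧ z.re ∈ cantorSet}

theorem afH_norm_real {a b : ℝ} {ha : a ≠ 0} {z : ℂ} (h : z.im = 0) :
    ‖afH a b ha z‖ = |a * z.re + b| := by
  have : afH a b ha z = ((a * z.re + b : ℝ) : ℂ) := by
    apply Complex.ext
    · rw [afH_re]; simp
    · rw [afH_im, h]; simp
  rw [this, Complex.norm_real, Real.norm_eq_abs]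

theorem twH_stab {a b : ℝ} {ha : a ≠ 0}
    (hgap : ∀ x ∈ cantorSet, ¬ (1 < |a * x + b| ∧ |a * x + b| < 2))
    (hflip : ∀ x, |a * x + b| ≤ 1 → (-x - 2 * b / a ∈ cantorSet ↔ x ∈ cantorSet)) (z : ℂ) :
    twH a b ha z ∈ CC ↔ z ∈ CC := by
  rcases le_or_gt ‖afH a b ha z‖ 1 with h | h
  · obtain ⟨h1, h2⟩ := twH_in h
    simp only [CC, Set.mem_ofPred_eq, h1, h2, neg_eq_zero]
    constructor
    · rintro ⟨h3, h4⟩
      refine ⟨h3, ?_⟩
      rw [afH_norm_real h3] at h
      exact (hflip _ h).1 h4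
    · rintro ⟨h3, h4⟩
      refine ⟨h3, ?_⟩
      rw [afH_norm_real h3] at h
      exact (hflip _ h).2 h4
  rcases le_or_gt 2 ‖afH a b ha z‖ with h' | h'
  · rw [twH_out h']
  · constructor
    · rintro ⟨h3, h4⟩
      exfalso
      have h5 : ‖afH a b ha (twH a b ha z)‖ = ‖afH a b ha z‖ := by rw [twH_eq, norm_rot]
      rw [afH_norm_real h3] at h5
      exact hgap _ h4 ⟨by rw [h5]; exact h, by rw [h5]; exact h'⟩
    · rintro ⟨h3, h4⟩
      exfalso
      rw [afH_norm_real h3] at h h'
      exact hgap _ h4 ⟨h, h'⟩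

theorem sh_stab {a : ℝ → ℝ} {k : ℝ} (hk : 1 ≤ k) (h : ∀ x, a x ∈ cantorSet ↔ x ∈ cantorSet)
    (z : ℂ) : sh a k z ∈ CC ↔ z ∈ CC := by
  simp only [CC, Set.mem_ofPred_eq, sh]
  constructor
  · rintro ⟨h1, h2⟩
    refine ⟨h1, ?_⟩
    rw [h1, ct_one (by simpa using hk)] at h2
    have e : z.re + 1 * (a z.re - z.re) = a z.re := by ring
    rw [e] at h2
    exact (h _).1 h2
  · rintro ⟨h1, h2⟩
    refine ⟨h1, ?_⟩
    rw [h1, ct_one (by simpa using hk)]
    have e : z.re + 1 * (a z.re - z.re) = a z.re := by ring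
    rw [e]
    exact (h _).2 h2

end Pool.Agent.V11191.MC
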