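import Mathlib
import Pool.Agent.V11191.MC.Plane

/-!
The mapping class of a homeomorphism of the plane preserving the Cantor set `CC` determines its
action on `CC`.
-/

set_option autoImplicit false

open Set Filter Topology
open scoped unitInterval

namespace Pool.Agent.V11191.MC

theorem no_sep (F : Stab CC) (h : resH CC F ∈ Homeo0 (Surf CC)) {U : Set ℂ} (hU : IsOpen U)
    (hb : Bornology.IsBounded U) (hfr : ∀ z ∈ frontier U, z ∉ CC) {c : ℂ} (hc : c ∈ CC)
    (hcU : c ∈ U) (hc' : F.1 c ∉ closure U) : False := by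
  obtain ⟨Φ, h1, h2, h3⟩ := h
  have hK : IsCompact (frontier U) := by
    apply Metric.isCompact_of_isClosed_isBounded isClosed_frontier
    exact hb.closure.subset frontier_subset_closure
  set KS : Set (Surf CC) := Subtype.val ⁻¹' (frontier U) with hKS
  have hKSc : IsCompact KS := by
    apply Topology.IsInducing.subtypeVal.isCompact_preimage' hK
    intro z hz
    exact ⟨⟨z, hfr z hz⟩, rfl⟩
  have hPc : IsCompact (Φ ⁻¹' ((univ : Set I) ×ˢ KS)) :=
    Φ.isCompact_preimage.2 (isCompact_univ.prod hKSc)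
  set L : Set ℂ := (fun p : I × Surf CC => (p.2 : ℂ)) '' (Φ ⁻¹' ((univ : Set I) ×ˢ KS)) with hL
  have hLc : IsCompact L := hPc.image (by fun_prop)
  have hcL : c ∉ L := by
    rintro ⟨p, -, hp⟩
    have := p.2.2
    rw [show (p.2 : ℂ) = c from hp] at this
    exact this hc
  have hW : U ∩ (F.1 ⁻¹' (closure U)ᶜ) ∩ Lᶜ ∈ 𝓝 c := by
    refine inter_mem (inter_mem (hU.mem_nhds hcU) ?_) (hLc.isClosed.isOpen_compl.mem_nhds hcL)
    exact (isClosed_closure.isOpen_compl.preimage F.1.continuous).mem_nhds hc'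
  have hseq : Tendsto (fun n : ℕ => c + ((1 / ((n : ℝ) + 1) : ℝ) : ℂ) * Complex.I) atTop (𝓝 c) := by
    have e1 : Tendsto (fun n : ℕ => ((1 / ((n : ℝ) + 1) : ℝ) : ℂ)) atTop (𝓝 ((0 : ℝ) : ℂ)) :=
      (Complex.continuous_ofReal.tendsto 0).comp tendsto_one_div_add_atTop_nhds_zero_nat
    have e2 := (e1.mul_const Complex.I).const_add c
    simpa using e2
  obtain ⟨n, ⟨hn1, hn2⟩, hn3⟩ := (hseq.eventually hW).exists
  set x₀ : ℂ := c + ((1 / ((n : ℝ) + 1) : ℝ) : ℂ) * Complex.I with hx₀
  have him : x₀.im ≠ 0 := by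
    have e : x₀.im = 1 / ((n : ℝ) + 1) := by
      rw [hx₀, Complex.add_im, hc.1, Complex.mul_I_im, Complex.ofReal_re, zero_add]
    rw [e]
    positivity
  have hxC : x₀ ∉ CC := fun h => him h.1
  set x : Surf CC := ⟨x₀, hxC⟩ with hx
  set γ : I → ℂ := fun t => ((Φ (t, x)).2 : ℂ) with hγ
  have hγc : Continuous γ := by
    have : Continuous fun t : I => Φ (t, x) := Φ.continuous.comp (by fun_prop)
    exact continuous_subtype_val.comp (continuous_snd.comp this)
  have hpre : IsPreconnected (range γ) := isPreconnected_range hγc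
  have hp0 : (range γ ∩ U).Nonempty := by
    refine ⟨x₀, ⟨0, ?_⟩, hn1⟩
    simp only [hγ, h2, hx]
  have hp1 : (range γ ∩ (closure U)ᶜ).Nonempty := by
    refine ⟨F.1 x₀, ⟨1, ?_⟩, hn2⟩
    simp only [hγ, h3]
    rfl
  obtain ⟨t, hw⟩ : ∃ t, γ t ∈ frontier U := by
    by_contra hno
    push Not at hno
    obtain ⟨w, -, hw1, hw2⟩ := hpre U (closure U)ᶜ hU isClosed_closure.isOpen_compl (by
      rintro w ⟨t, rfl⟩
      by_cases hcl : γ t ∈ closure U
      · left
        by_contra hnU
        exact hno t (by rw [hU.frontier_eq]; exact ⟨hcl, hnU⟩)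
      · right; exact hcl) hp0 hp1
    exact hw2 (subset_closure hw1)
  apply hn3
  refine ⟨(t, x), ?_, rfl⟩
  exact ⟨trivial, hw⟩

theorem cls_fix (F : Stab CC) (h : cls CC F = 1) (c : ℂ) (hc : c ∈ CC) : F.1 c = c := by
  have h0 : resH CC F ∈ Homeo0 (Surf CC) := (QuotientGroup.eq_one_iff _).1 h
  by_contra hne
  have hc' : F.1 c ∈ CC := (F.2 c).2 hc
  have hre : c.re ≠ (F.1 c).re := by
    intro e
    exact hne (Complex.ext e.symm (by rw [hc.1, hc'.1]))
  have norm_le : ∀ z ∈ CC, ‖z‖ ≤ 1 := by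
    intro z hz
    have e : z = ((z.re : ℝ) : ℂ) := Complex.ext (by simp) (by simp [hz.1])
    rw [e, Complex.norm_real, Real.norm_eq_abs, abs_of_nonneg (c01 hz.2).1]
    exact (c01 hz.2).2
  rcases lt_or_gt_of_ne hre with hlt | hlt
  · obtain ⟨u, hu1, hu2, hu3⟩ := c_hole hlt
    have hcl : closure {z : ℂ | z.re < u ∧ ‖z‖ < 3} ⊆ {z : ℂ | z.re ≤ u ∧ ‖z‖ ≤ 3} := by
      apply closure_minimal
      · rintro z ⟨h1, h2⟩
        exact ⟨h1.le, h2.le⟩
      · exact (isClosed_le Complex.continuous_re continuous_const).inter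
          (isClosed_le continuous_norm continuous_const)
    have hop : IsOpen {z : ℂ | z.re < u ∧ ‖z‖ < 3} :=
      (isOpen_lt Complex.continuous_re continuous_const).inter
          (isOpen_lt continuous_norm continuous_const)
    refine no_sep F h0 (U := {z : ℂ | z.re < u ∧ ‖z‖ < 3}) hop ?_ ?_ hc
      ⟨hu1, by linarith [norm_le c hc]⟩ ?_
    · apply Metric.isBounded_ball (x := (0 : ℂ)) (r := 3) |>.subset
      rintro z ⟨-, hz⟩
      simpa using hz
    · intro z hz hzC
      rw [hop.frontier_eq] at hz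
      have h1 := hcl hz.1
      have h2 := norm_le z hzC
      have h3 : ¬ (z.re < u ∧ ‖z‖ < 3) := hz.2
      have h4 : z.re = u := by
        rcases h1.1.lt_or_eq with h5 | h5
        · exact absurd ⟨h5, by linarith⟩ h3
        · exact h5
      exact hu3 (h4 ▸ hzC.2)
    · intro hh
      have := (hcl hh).1
      linarith
  · obtain ⟨u, hu1, hu2, hu3⟩ := c_hole hlt
    have hcl : closure {z : ℂ | u < z.re ∧ ‖z‖ < 3} ⊆ {z : ℂ | u ≤ z.re ∧ ‖z‖ ≤ 3} := by
      apply closure_minimal
      · rintro z ⟨h1, h2⟩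
        exact ⟨h1.le, h2.le⟩
      · exact (isClosed_le continuous_const Complex.continuous_re).inter
          (isClosed_le continuous_norm continuous_const)
    have hop : IsOpen {z : ℂ | u < z.re ∧ ‖z‖ < 3} :=
      (isOpen_lt continuous_const Complex.continuous_re).inter
          (isOpen_lt continuous_norm continuous_const)
    refine no_sep F h0 (U := {z : ℂ | u < z.re ∧ ‖z‖ < 3}) hop ?_ ?_ hc
      ⟨hu2, by linarith [norm_le c hc]⟩ ?_
    · apply Metric.isBounded_ball (x := (0 : ℂ)) (r := 3) |>.subset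
      rintro z ⟨-, hz⟩
      simpa using hz
    · intro z hz hzC
      rw [hop.frontier_eq] at hz
      have h1 := hcl hz.1
      have h2 := norm_le z hzC
      have h3 : ¬ (u < z.re ∧ ‖z‖ < 3) := hz.2
      have h4 : z.re = u := by
        rcases h1.1.lt_or_eq with h5 | h5
        · exact absurd ⟨h5, by linarith⟩ h3
        · exact h5.symm
      exact hu3 (h4 ▸ hzC.2)
    · intro hh
      have := (hcl hh).1
      linarith

/-- equal mapping classes act equally on the Cantor set -/
theorem cls_eq (F G : Stab CC) (h : cls CC F = cls CC G) (c : ℂ) (hc : c ∈ CC) :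
    F.1 c = G.1 c := by
  have h1 : cls CC (G⁻¹ * F) = 1 := by rw [map_mul, map_inv, h, inv_mul_cancel]
  have h2 := cls_fix _ h1 c hc
  have h3 : (G⁻¹ * F).1 c = G.1.symm (F.1 c) := rfl
  rw [h3, Homeomorph.symm_apply_eq] at h2
  exact h2

end Pool.Agent.V11191.MC
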