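import Mathlib
import Pool.Agent.V11191.MC.Plane

/-!
The four generators, their supports and their action on the Cantor set.
-/

set_option autoImplicit false

open Set

namespace Pool.Agent.V11191.MC

theorem c_gap2 {x : ℝ} (h : x ∈ cantorSet) : x ≤ 1 / 3 ∨ (2 / 3 ≤ x ∧ x ≤ 7 / 9) ∨ 8 / 9 ≤ x := by
  rcases c_cases h with ⟨y, hy, e⟩ | ⟨y, hy, e⟩
  · left; have := (c01 hy).2; linarith
  · right
    have h0 := (c01 hy).1
    rcases c_gap hy with h1 | h1
    · left; constructor <;> linarith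
    · right; linarith

theorem s1_gap (x : ℝ) (h : x ∈ cantorSet) :
    ¬ (1 < |(18 : ℝ) * x + (-13)| ∧ |(18 : ℝ) * x + (-13)| < 2) := by
  rintro ⟨h1, h2⟩
  rw [abs_lt] at h2
  rw [lt_abs] at h1
  rcases c_gap2 h with h3 | ⟨h3, h4⟩ | h3
  · linarith [h2.1]
  · rcases h1 with h1 | h1 <;> linarith
  · linarith [h2.2]

theorem s1_flip (x : ℝ) (h : |(18 : ℝ) * x + (-13)| ≤ 1) :
    -x - 2 * (-13) / 18 ∈ cantorSet ↔ x ∈ cantorSet := by
  rw [abs_le] at h
  obtain ⟨u, rfl⟩ : ∃ u, x = 2 / 3 + u / 9 := ⟨9 * (x - 2 / 3), by ring⟩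
  have h0 : 0 ≤ u := by linarith [h.1]
  have h1 : u ≤ 1 := by linarith [h.2]
  have e : -(2 / 3 + u / 9) - 2 * (-13) / 18 = 2 / 3 + (1 - u) / 9 := by ring
  rw [e, c_cyl (by linarith) (by linarith), c_cyl h0 h1, c_symm]

theorem s2_gap (x : ℝ) (h : x ∈ cantorSet) :
    ¬ (1 < |(54 : ℝ) * x + (-41)| ∧ |(54 : ℝ) * x + (-41)| < 2) := by
  rintro ⟨h1, h2⟩
  rw [abs_lt] at h2
  rw [lt_abs] at h1
  rcases c_gap2 h with h3 | ⟨h3, h4⟩ | h3
  · linarith [h2.1]
  · obtain ⟨u, rfl⟩ : ∃ u, x = 2 / 3 + u / 9 := ⟨9 * (x - 2 / 3), by ring⟩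
    have h0 : 0 ≤ u := by linarith
    have h5 : u ≤ 1 := by linarith
    rw [c_cyl h0 h5] at h
    rcases c_gap h with h6 | h6
    · linarith [h2.1]
    · rcases h1 with h1 | h1 <;> linarith
  · linarith [h2.2]

theorem c_flip3 {u : ℝ} (h0 : 2 / 3 ≤ u) (h1 : u ≤ 1) :
    5 / 3 - u ∈ cantorSet ↔ u ∈ cantorSet := by
  obtain ⟨w, rfl⟩ : ∃ w, u = (2 + w) / 3 := ⟨3 * u - 2, by ring⟩
  have e : 5 / 3 - (2 + w) / 3 = (2 + (1 - w)) / 3 := by ring
  rw [e, c_third' (by linarith), c_third' (by linarith), c_symm]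

theorem s2_flip (x : ℝ) (h : |(54 : ℝ) * x + (-41)| ≤ 1) :
    -x - 2 * (-41) / 54 ∈ cantorSet ↔ x ∈ cantorSet := by
  rw [abs_le] at h
  obtain ⟨u, rfl⟩ : ∃ u, x = 2 / 3 + u / 9 := ⟨9 * (x - 2 / 3), by ring⟩
  have h0 : 2 / 3 ≤ u := by linarith [h.1]
  have h1 : u ≤ 1 := by linarith [h.2]
  have e : -(2 / 3 + u / 9) - 2 * (-41) / 54 = 2 / 3 + (5 / 3 - u) / 9 := by ring
  rw [e, c_cyl (by linarith) (by linarith), c_cyl (by linarith) h1, c_flip3 h0 h1]

/-- the shift -/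
noncomputable def GB : Stab CC := ⟨gB, sh_stab (by norm_num) (fun _ => c_bet)⟩

/-- Thompson's map in the cylinder -/
noncomputable def GC : Stab CC := ⟨gC, sh_stab (by norm_num) (fun _ => c_gam)⟩

/-- the half twist of the cylinder -/
noncomputable def S1 : Stab CC := ⟨twH 18 (-13) (by norm_num), twH_stab s1_gap s1_flip⟩

/-- the half twist of the right part of the cylinder -/
noncomputable def S2 : Stab CC := ⟨twH 54 (-41) (by norm_num), twH_stab s2_gap s2_flip⟩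

/-- the support -/
def DD : Set ℂ := {z | 1 / 2 < z.re ∧ z.re < 5 / 6 ∧ |z.im| < 2}

theorem not_DD {z : ℂ} (h : z ∉ DD) : z.re ≤ 1 / 2 ∨ 5 / 6 ≤ z.re ∨ 2 ≤ |z.im| := by
  by_contra hc
  push Not at hc
  exact h hc

theorem tw_fix {a b : ℝ} {ha : a ≠ 0} (h1 : a * (1 / 2) + b ≤ -2) (h2 : 2 ≤ a * (5 / 6) + b)
    (hpos : 0 < a) {z : ℂ} (h : z ∉ DD) : twH a b ha z = z := by
  apply twH_out
  have e1 := Complex.abs_re_le_norm (afH a b ha z)
  have e2 := Complex.abs_im_le_norm (afH a b ha z)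
  rw [afH_re] at e1
  rw [afH_im] at e2
  rcases not_DD h with h3 | h3 | h3
  · have : a * z.re ≤ a * (1 / 2) := mul_le_mul_of_nonneg_left h3 hpos.le
    have := neg_le_abs (a * z.re + b)
    linarith
  · have : a * (5 / 6) ≤ a * z.re := mul_le_mul_of_nonneg_left h3 hpos.le
    have := le_abs_self (a * z.re + b)
    linarith
  · linarith

theorem S1_fix {z : ℂ} (h : z ∉ DD) : S1.1 z = z :=
  tw_fix (by norm_num) (by norm_num) (by norm_num) h

theorem S2_fix {z : ℂ} (h : z ∉ DD) : S2.1 z = z :=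
  tw_fix (by norm_num) (by norm_num) (by norm_num) h

theorem GC_fix {z : ℂ} (h : z ∉ DD) : GC.1 z = z := by
  show sh gam 2 z = z
  apply Complex.ext
  · show z.re + ct 2 z.im * (gam z.re - z.re) = z.re
    rcases not_DD h with h3 | h3 | h3
    · rw [gam_lo (by linarith)]; ring
    · rw [gam_hi (by linarith)]; ring
    · rw [ct_zero h3]; ring
  · rfl

theorem GB_re {z : ℂ} (h : |z.im| ≤ 2) : (GB.1 z).re = bet z.re := by
  show z.re + ct 3 z.im * (bet z.re - z.re) = bet z.re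
  rw [ct_one (by linarith)]; ring

theorem GB_im (z : ℂ) : (GB.1 z).im = z.im := rfl

theorem GB_far {z : ℂ} (h : 5 ≤ ‖z‖) : GB.1 z = z := by
  show sh bet 3 z = z
  apply Complex.ext
  · show z.re + ct 3 z.im * (bet z.re - z.re) = z.re
    rcases le_or_gt 3 |z.im| with h3 | h3
    · rw [ct_zero h3]; ring
    · have h4 := Complex.norm_le_abs_re_add_abs_im z
      have h5 : 2 < |z.re| := by linarith
      rcases lt_abs.1 h5 with h6 | h6
      · rw [bet_hi (by linarith)]; ring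
      · rw [bet_lo (by linarith)]; ring
  · rfl

theorem DD_norm {z : ℂ} (h : z ∈ DD) : ‖z‖ < 5 := by
  have h4 := Complex.norm_le_abs_re_add_abs_im z
  have h5 : |z.re| < 2 := by
    rw [abs_lt]; constructor <;> linarith [h.1, h.2.1]
  linarith [h.2.2]

theorem GB_pow {z : ℂ} (h : z ∈ DD) (n : ℕ) :
    ((GB ^ (n + 1) : Stab CC).1 z).re ≤ 1 / 2 ∧ ((GB ^ (n + 1) : Stab CC).1 z).im = z.im := by
  induction n with
  | zero =>
    rw [zero_add, pow_one, GB_re h.2.2.le]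
    refine ⟨?_, rfl⟩
    have h1 := bet_mono h.2.1.le
    rw [bet_c (x := 5 / 6) (by norm_num) (by norm_num)] at h1
    linarith
  | succ n ih =>
    have e : (GB ^ (n + 1 + 1) : Stab CC).1 z = GB.1 ((GB ^ (n + 1) : Stab CC).1 z) := by
      rw [pow_succ' GB (n + 1)]
      rfl
    rw [e, GB_im, GB_re (by rw [ih.2]; exact h.2.2.le)]
    exact ⟨(bet_le _).trans ih.1, ih.2⟩

theorem comm_disj {F G : ℂ ≃ₜ ℂ} {D E : Set ℂ} (hF : ∀ z, z ∉ D → F z = z)
    (hG : ∀ z, z ∉ E → G z = z) (hd : ∀ z ∈ D, z ∉ E) (z : ℂ) : F (G z) = G (F z) := by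
  have stay : ∀ {K : ℂ ≃ₜ ℂ} {B : Set ℂ}, (∀ z, z ∉ B → K z = z) → ∀ z ∈ B, K z ∈ B := by
    intro K B hK z hz
    by_contra hn
    have := hK _ hn
    have := K.injective this
    rw [this] at hn
    exact hn hz
  by_cases hz : z ∈ D
  · rw [hG z (hd z hz), hG _ (hd _ (stay hF z hz))]
  · rw [hF z hz]
    by_cases hz' : z ∈ E
    · have : G z ∉ D := fun h => hd _ h (stay hG z hz')
      rw [hF _ this]
    · rw [hG z hz', hF z hz]

/-- the homeomorphisms supported in `DD` -/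
def Sup : Subgroup (Stab CC) where
  carrier := {F | ∀ z, z ∉ DD → F.1 z = z}
  one_mem' := fun _ _ => rfl
  mul_mem' := by
    intro F G hF hG z hz
    have e : (F * G).1 z = F.1 (G.1 z) := rfl
    rw [e, hG z hz, hF z hz]
  inv_mem' := by
    intro F hF z hz
    have e : (F⁻¹).1 z = F.1.symm z := rfl
    rw [e, Homeomorph.symm_apply_eq]
    exact (hF z hz).symm

theorem Sup_comm {F G : Stab CC} (hF : F ∈ Sup) (hG : G ∈ Sup) (n : ℕ) (hn : 1 ≤ n) :
    Commute F (GB ^ (n : ℤ) * G * (GB ^ (n : ℤ))⁻¹) := by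
  obtain ⟨m, rfl⟩ : ∃ m, n = m + 1 := ⟨n - 1, by omega⟩
  rw [zpow_natCast]
  apply Subtype.ext
  refine Homeomorph.ext fun z => ?_
  exact comm_disj (F := F.1)
      (G := ((GB ^ (m + 1) : Stab CC) * G * (GB ^ (m + 1) : Stab CC)⁻¹).1)
      (D := DD) (E := (GB ^ (m + 1) : Stab CC).1 '' DD) hF (by
        intro w hw
        have e : ((GB ^ (m + 1) : Stab CC) * G * (GB ^ (m + 1) : Stab CC)⁻¹).1 w =
          (GB ^ (m + 1) : Stab CC).1 (G.1 ((GB ^ (m + 1) : Stab CC).1.symm w)) := rfl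
        rw [e, hG, Homeomorph.apply_symm_apply]
        intro h
        exact hw ⟨_, h, Homeomorph.apply_symm_apply _ _⟩) (by
        rintro w hw ⟨v, hv, rfl⟩
        have := (GB_pow hv m).1
        linarith [hw.1]) z

theorem Sup_DD {F : Stab CC} (hF : F ∈ Sup) (z : ℂ) : F.1 z ∈ DD ↔ z ∈ DD := by
  constructor
  · intro h
    by_contra hn
    rw [hF z hn] at h
    exact hn h
  · intro h
    by_contra hn
    have := F.1.injective (hF _ hn)
    rw [this] at hn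
    exact hn h

/-- the coordinate in the cylinder -/
noncomputable def uu (z : ℂ) : ℝ := 9 * (z.re - 2 / 3)

theorem uu_mem {z : ℂ} (hz : z ∈ CC) (hD : z ∈ DD) : uu z ∈ cantorSet := by
  have h := hz.2
  have h1 : 2 / 3 ≤ z.re ∧ z.re ≤ 7 / 9 := by
    rcases c_gap2 h with h3 | h3 | h3
    · linarith [hD.1]
    · exact h3
    · linarith [hD.2.1]
  have e : z.re = 2 / 3 + uu z / 9 := by unfold uu; ring
  rw [e, c_cyl (by unfold uu; linarith) (by unfold uu; linarith)] at h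
  exact h

theorem uu_S1 {z : ℂ} (hz : z ∈ CC) (hD : z ∈ DD) : uu (S1.1 z) = 1 - uu z := by
  have h := c01 (uu_mem hz hD)
  have e : z.re = 2 / 3 + uu z / 9 := by unfold uu; ring
  have h1 : ‖afH 18 (-13) (by norm_num) z‖ ≤ 1 := by
    rw [afH_norm_real hz.1, abs_le]
    constructor <;> linarith
  have h2 := (twH_in h1).1
  show 9 * ((twH 18 (-13) (by norm_num) z).re - 2 / 3) = 1 - uu z
  rw [h2]
  unfold uu; ring

theorem uu_S2 {z : ℂ} (hz : z ∈ CC) (h0 : 2 / 3 ≤ uu z) (h1 : uu z ≤ 1) :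
    uu (S2.1 z) = 5 / 3 - uu z := by
  have e : z.re = 2 / 3 + uu z / 9 := by unfold uu; ring
  have h1 : ‖afH 54 (-41) (by norm_num) z‖ ≤ 1 := by
    rw [afH_norm_real hz.1, abs_le]
    constructor <;> linarith
  have h2 := (twH_in h1).1
  show 9 * ((twH 54 (-41) (by norm_num) z).re - 2 / 3) = 5 / 3 - uu z
  rw [h2]
  unfold uu; ring

theorem S2_low {z : ℂ} (hz : z ∈ CC) (h1 : uu z ≤ 1 / 3) : S2.1 z = z := by
  have e : z.re = 2 / 3 + uu z / 9 := by unfold uu; ring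
  apply twH_out
  rw [afH_norm_real hz.1, le_abs]
  right
  linarith

theorem uu_GC {z : ℂ} (hz : z ∈ CC) : uu (GC.1 z) = bet (uu z) := by
  show 9 * ((sh gam 2 z).re - 2 / 3) = bet (uu z)
  have : (sh gam 2 z).re = gam z.re := by
    show z.re + ct 2 z.im * (gam z.re - z.re) = gam z.re
    rw [ct_one (by rw [hz.1]; simp)]; ring
  rw [this]
  unfold gam uu; ring

end Pool.Agent.V11191.MC
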