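import Mathlib

/-!
A criterion for non-amenability of a group by a paradoxical action of a subgroup.
-/

set_option autoImplicit false

namespace Pool.Agent.V11191.MC

/-- amenability of a discrete group: a finitely additive left-invariant probability -/
def Amen (G : Type*) [Group G] : Prop :=
  ∃ m : Set G → ℝ, (∀ S, 0 ≤ m S) ∧ m Set.univ = 1 ∧
    (∀ S T, Disjoint S T → m (S ∪ T) = m S + m T) ∧
    ∀ (g : G) (S : Set G), m ((fun x => g * x) '' S) = m S

/-- an equivariant map to a set on which the subgroup `A` acts -/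
theorem exists_equi {G X : Type*} [Group G] (π : G →* Equiv.Perm X) (A : Subgroup G) (K : Set X)
    (p : X) (hp : p ∈ K) (hK : ∀ a ∈ A, ∀ x ∈ K, π a x ∈ K) :
    ∃ q : G → X, (∀ h, q h ∈ K) ∧ ∀ a ∈ A, ∀ h, q (a * h) = π a (q h) := by
  classical
  let s : Setoid G := QuotientGroup.rightRel A
  let r : G → G := fun h => (Quotient.mk s h).out
  have hr : ∀ h, h * (r h)⁻¹ ∈ A := by
    intro h
    have h1 : s.r (Quotient.mk s h).out h := Quotient.exact (Quotient.out_eq (Quotient.mk s h))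
    have h2 : (Quotient.mk s h).out ≈ h := h1
    rw [← QuotientGroup.rightRel_apply (s := A)]
    exact h2
  have hra : ∀ a ∈ A, ∀ h, r (a * h) = r h := by
    intro a ha h
    have : Quotient.mk s (a * h) = Quotient.mk s h := by
      apply Quotient.sound
      show (QuotientGroup.rightRel A) _ _
      rw [QuotientGroup.rightRel_apply]
      simpa using A.inv_mem ha
    simp only [r, this]
  refine ⟨fun h => π (h * (r h)⁻¹) p, fun h => hK _ (hr h) _ hp, fun a ha h => ?_⟩
  show π (a * h * (r (a * h))⁻¹) p = π a (π (h * (r h)⁻¹) p)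
  rw [hra a ha h, mul_assoc, map_mul]
  rfl

theorem not_amen {G X : Type*} [Group G] (π : G →* Equiv.Perm X) (A : Subgroup G)
    (p : X) (K P0 P1 P00 P01 P10 P11 : Set X) (hp : p ∈ K)
    (hK : ∀ a ∈ A, ∀ x ∈ K, π a x ∈ K) (e : K = P0 ∪ P1) (e0 : P0 = P00 ∪ P01)
    (e1 : P1 = P10 ∪ P11) (d : Disjoint P0 P1) (d0 : Disjoint P00 P01) (d1 : Disjoint P10 P11)
    (s t b : G) (hs : s ∈ A) (ht : t ∈ A) (hb : b ∈ A)
    (hs1 : ∀ x, π s x ∈ P1 ↔ x ∈ P0) (hb0 : ∀ x, π b x ∈ P00 ↔ x ∈ P0)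
    (hb1 : ∀ x, π b x ∈ P01 ↔ x ∈ P10) (ht1 : ∀ x, π t x ∈ P11 ↔ x ∈ P10) :
    ¬ Amen G := by
  rintro ⟨m, m0, m1, madd, minv⟩
  obtain ⟨q, hqK, hq⟩ := exists_equi π A K p hp hK
  set μ : Set X → ℝ := fun E => m {h | q h ∈ E} with hμ
  have μadd : ∀ E F, Disjoint E F → μ (E ∪ F) = μ E + μ F := by
    intro E F hEF
    have : {h | q h ∈ E ∪ F} = {h | q h ∈ E} ∪ {h | q h ∈ F} := rfl
    simp only [hμ]
    rw [this]
    apply madd
    rw [Set.disjoint_left] at hEF ⊢
    intro h h1 h2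
    exact hEF h1 h2
  have μinv : ∀ a ∈ A, ∀ E F : Set X, (∀ x, π a x ∈ E ↔ x ∈ F) → μ E = μ F := by
    intro a ha E F hEF
    simp only [hμ]
    rw [← minv a⁻¹ {h | q h ∈ E}]
    congr 1
    ext h
    simp only [Set.mem_image, Set.mem_ofPred_eq]
    constructor
    · rintro ⟨y, hy, rfl⟩
      rw [← hEF]
      have := hq a ha (a⁻¹ * y)
      rw [mul_inv_cancel_left] at this
      rwa [← this]
    · intro hh
      refine ⟨a * h, ?_, by group⟩
      rw [hq a ha, hEF]
      exact hh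
  have hKm : μ K = 1 := by
    simp only [hμ]
    have : {h | q h ∈ K} = Set.univ := Set.eq_univ_of_forall hqK
    rw [this, m1]
  have a1 := μadd _ _ d
  have a2 := μadd _ _ d0
  have a3 := μadd _ _ d1
  rw [← e] at a1
  rw [← e0] at a2
  rw [← e1] at a3
  have i1 := μinv s hs P1 P0 hs1
  have i2 := μinv b hb P00 P0 hb0
  have i3 := μinv b hb P01 P10 hb1
  have i4 := μinv t ht P11 P10 ht1
  linarith

end Pool.Agent.V11191.MC
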