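import Mathlib

/-!
Homogeneous quasimorphisms on a group generated by a subgroup `A` and an element `g` such that
all conjugates `g ^ n A g ^ (-n)`, `n ≥ 1`, commute with `A`: they are homomorphisms.
-/

set_option autoImplicit false

namespace Pool.Agent.V11191.MC

variable {G : Type*} [Group G]

/-- a homogeneous quasimorphism -/
structure HQM (φ : G → ℝ) : Prop where
  bdd : ∃ D : ℝ, ∀ g h : G, |φ (g * h) - φ g - φ h| ≤ D
  hom : ∀ (g : G) (n : ℤ), φ (g ^ n) = n * φ g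

section basic

variable {φ : G → ℝ}

theorem zero_of_bdd {a D : ℝ} (h : ∀ n : ℕ, (n : ℝ) * |a| ≤ D) : a = 0 := by
  by_contra hne
  have hpos : 0 < |a| := abs_pos.2 hne
  obtain ⟨n, hn⟩ := exists_nat_gt (D / |a|)
  have := h n
  rw [div_lt_iff₀ hpos] at hn
  linarith

theorem HQM.pow (h : HQM φ) (g : G) (n : ℕ) : φ (g ^ n) = n * φ g := by
  have := h.hom g n
  rw [zpow_natCast] at this
  rw [this]; norm_cast

theorem HQM.one (h : HQM φ) : φ 1 = 0 := by
  have := h.hom 1 0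
  simpa using this

theorem HQM.inv (h : HQM φ) (g : G) : φ g⁻¹ = - φ g := by
  have := h.hom g (-1)
  simpa using this

theorem HQM.mul_comm' (h : HQM φ) {x y : G} (hc : Commute x y) : φ (x * y) = φ x + φ y := by
  obtain ⟨D, hD⟩ := h.bdd
  have key : φ (x * y) - φ x - φ y = 0 := by
    apply zero_of_bdd (D := D)
    intro n
    have h1 := hD (x ^ n) (y ^ n)
    rw [← hc.mul_pow, h.pow, h.pow, h.pow] at h1
    calc (n : ℝ) * |φ (x * y) - φ x - φ y| = |(n : ℝ) * φ (x * y) - n * φ x - n * φ y| := by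
          rw [← abs_of_nonneg (Nat.cast_nonneg n : (0:ℝ) ≤ n), ← abs_mul,
            abs_of_nonneg (Nat.cast_nonneg n : (0:ℝ) ≤ n)]
          congr 1; ring
      _ ≤ D := h1
  linarith

theorem HQM.conj (h : HQM φ) (t x : G) : φ (t * x * t⁻¹) = φ x := by
  obtain ⟨D, hD⟩ := h.bdd
  have key : φ (t * x * t⁻¹) - φ x = 0 := by
    apply zero_of_bdd (D := 2 * D)
    intro n
    have h1 := hD (t * x ^ n) t⁻¹
    have h2 := hD t (x ^ n)
    rw [← conj_pow, h.pow, h.inv] at h1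
    rw [h.pow] at h2
    calc (n : ℝ) * |φ (t * x * t⁻¹) - φ x| = |(n : ℝ) * φ (t * x * t⁻¹) - n * φ x| := by
          rw [← abs_of_nonneg (Nat.cast_nonneg n : (0:ℝ) ≤ n), ← abs_mul,
            abs_of_nonneg (Nat.cast_nonneg n : (0:ℝ) ≤ n)]
          congr 1; ring
      _ = |((n : ℝ) * φ (t * x * t⁻¹) - φ (t * x ^ n) - -φ t) +
            (φ (t * x ^ n) - φ t - n * φ x)| := by congr 1; ring
      _ ≤ 2 * D := by
          refine (abs_add_le _ _).trans ?_
          linarith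
  linarith

end basic

/-- partial products `x · t x t⁻¹ · ... ` -/
def prodc (t x : G) : ℕ → G
  | 0 => 1
  | n + 1 => x * (t * prodc t x n * t⁻¹)

theorem commute_prodc {t x y : G} (h : ∀ k : ℕ, 1 ≤ k → Commute y (t ^ k * x * (t ^ k)⁻¹)) :
    ∀ (n k : ℕ), 1 ≤ k → Commute y (t ^ k * prodc t x n * (t ^ k)⁻¹) := by
  intro n
  induction n with
  | zero => intro k _; simp [prodc]
  | succ n ih =>
    intro k hk
    have e : t ^ k * prodc t x (n + 1) * (t ^ k)⁻¹ =
        (t ^ k * x * (t ^ k)⁻¹) * (t ^ (k + 1) * prodc t x n * (t ^ (k + 1))⁻¹) := by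
      simp only [prodc, pow_succ]
      group
    rw [e]
    exact (h k hk).mul_right (ih (k + 1) (by omega))

theorem prodc_mul {t x y : G} (h : ∀ k : ℕ, 1 ≤ k → Commute y (t ^ k * x * (t ^ k)⁻¹)) :
    ∀ n, prodc t (x * y) n = prodc t x n * prodc t y n := by
  intro n
  induction n with
  | zero => simp [prodc]
  | succ n ih =>
    have hc := commute_prodc h n 1 le_rfl
    rw [pow_one] at hc
    simp only [prodc]
    rw [ih]
    calc x * y * (t * (prodc t x n * prodc t y n) * t⁻¹)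
        = x * (y * (t * prodc t x n * t⁻¹)) * (t * prodc t y n * t⁻¹) := by group
      _ = x * ((t * prodc t x n * t⁻¹) * y) * (t * prodc t y n * t⁻¹) := by rw [hc.eq]
      _ = _ := by group

theorem HQM.prodc {φ : G → ℝ} (hφ : HQM φ) {t x : G}
    (h : ∀ k : ℕ, 1 ≤ k → Commute x (t ^ k * x * (t ^ k)⁻¹)) :
    ∀ n : ℕ, φ (prodc t x n) = n * φ x := by
  intro n
  induction n with
  | zero => simp [MC.prodc, hφ.one]
  | succ n ih =>
    have hc := commute_prodc h n 1 le_rfl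
    rw [pow_one] at hc
    simp only [MC.prodc]
    rw [hφ.mul_comm' hc, hφ.conj, ih]
    push_cast; ring

/-- additivity on pairs all of whose translates commute -/
theorem HQM.add_of_translates {φ : G → ℝ} (hφ : HQM φ) {t x y : G}
    (hxx : ∀ k : ℕ, 1 ≤ k → Commute x (t ^ k * x * (t ^ k)⁻¹))
    (hyy : ∀ k : ℕ, 1 ≤ k → Commute y (t ^ k * y * (t ^ k)⁻¹))
    (hxy : ∀ k : ℕ, 1 ≤ k → Commute x (t ^ k * y * (t ^ k)⁻¹))
    (hyx : ∀ k : ℕ, 1 ≤ k → Commute y (t ^ k * x * (t ^ k)⁻¹)) :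
    φ (x * y) = φ x + φ y := by
  obtain ⟨D, hD⟩ := hφ.bdd
  have hzz : ∀ k : ℕ, 1 ≤ k → Commute (x * y) (t ^ k * (x * y) * (t ^ k)⁻¹) := by
    intro k hk
    have e : t ^ k * (x * y) * (t ^ k)⁻¹ =
        (t ^ k * x * (t ^ k)⁻¹) * (t ^ k * y * (t ^ k)⁻¹) := by group
    rw [e]
    exact ((hxx k hk).mul_right (hxy k hk)).mul_left ((hyx k hk).mul_right (hyy k hk))
  have key : φ (x * y) - φ x - φ y = 0 := by
    apply zero_of_bdd (D := D)
    intro n
    have h1 := hD (MC.prodc t x n) (MC.prodc t y n)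
    rw [← prodc_mul hyx, hφ.prodc hxx, hφ.prodc hyy, hφ.prodc hzz] at h1
    calc (n : ℝ) * |φ (x * y) - φ x - φ y| = |(n : ℝ) * φ (x * y) - n * φ x - n * φ y| := by
          rw [← abs_of_nonneg (Nat.cast_nonneg n : (0:ℝ) ≤ n), ← abs_mul,
            abs_of_nonneg (Nat.cast_nonneg n : (0:ℝ) ≤ n)]
          congr 1; ring
      _ ≤ D := h1
  linarith

section window

variable (A : Subgroup G) (g : G)

/-- conjugation by powers of `g` -/
def cj (k : ℤ) (x : G) : G := g ^ k * x * (g ^ k)⁻¹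

theorem cj_mul (k : ℤ) (x y : G) : cj g k (x * y) = cj g k x * cj g k y := by
  unfold cj; group

theorem cj_cj (k l : ℤ) (x : G) : cj g k (cj g l x) = cj g (k + l) x := by
  unfold cj; rw [zpow_add]; group

theorem cj_zero (x : G) : cj g 0 x = x := by simp [cj]

theorem cj_inv (k : ℤ) (x : G) : cj g k x⁻¹ = (cj g k x)⁻¹ := by unfold cj; group

theorem cj_one (k : ℤ) : cj g k (1 : G) = 1 := by unfold cj; group

/-- the group generated by the translates of `A` in a window -/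
def Win (m : ℕ) : Subgroup G :=
  Subgroup.closure {x | ∃ i : ℤ, |i| ≤ m ∧ ∃ a ∈ A, x = cj g i a}

theorem Win_mono {m n : ℕ} (h : m ≤ n) : Win A g m ≤ Win A g n := by
  apply Subgroup.closure_mono
  rintro x ⟨i, hi, a, ha, rfl⟩
  exact ⟨i, hi.trans (by exact_mod_cast h), a, ha, rfl⟩

theorem mem_Win_of_mem {a : G} (ha : a ∈ A) : a ∈ Win A g 0 :=
  Subgroup.subset_closure ⟨0, by simp, a, ha, by simp [cj_zero]⟩

theorem cj_mem_Win {m : ℕ} (k : ℤ) {x : G} (hx : x ∈ Win A g m) :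
    cj g k x ∈ Win A g (m + k.natAbs) := by
  unfold Win at hx
  induction hx using Subgroup.closure_induction with
  | mem x hx =>
    obtain ⟨i, hi, a, ha, rfl⟩ := hx
    rw [cj_cj]
    refine Subgroup.subset_closure ⟨k + i, ?_, a, ha, rfl⟩
    rw [abs_le] at hi ⊢
    push_cast
    have := abs_le.1 (le_refl |k|)
    constructor <;> linarith [hi.1, hi.2, this.1, this.2, abs_nonneg k]
  | one => rw [cj_one]; exact Subgroup.one_mem _
  | mul x y _ _ h1 h2 => rw [cj_mul]; exact Subgroup.mul_mem _ h1 h2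
  | inv x _ h1 => rw [cj_inv]; exact Subgroup.inv_mem _ h1

variable {A g}

theorem commute_gen (h : ∀ a ∈ A, ∀ b ∈ A, ∀ n : ℕ, 1 ≤ n → Commute a (cj g n b)) {a b : G}
    (ha : a ∈ A) (hb : b ∈ A) {k : ℤ} (hk : k ≠ 0) : Commute a (cj g k b) := by
  rcases lt_or_gt_of_ne hk with hneg | hpos
  · have h1 := h b hb a ha (-k).toNat (by omega)
    have e : ((-k).toNat : ℤ) = -k := Int.toNat_of_nonneg (by omega)
    rw [e] at h1
    -- b commutes with cj (-k) a; conjugate by g ^ k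
    have h2 : Commute (cj g k b) (cj g k (cj g (-k) a)) := by
      have := h1.eq
      show _ * _ = _ * _
      rw [← cj_mul, ← cj_mul, this]
    rw [cj_cj, add_neg_cancel, cj_zero] at h2
    exact h2.symm
  · have h1 := h a ha b hb k.toNat (by omega)
    have e : (k.toNat : ℤ) = k := Int.toNat_of_nonneg (by omega)
    rwa [e] at h1

theorem commute_Win (h : ∀ a ∈ A, ∀ b ∈ A, ∀ n : ℕ, 1 ≤ n → Commute a (cj g n b)) {m : ℕ}
    {x y : G} (hx : x ∈ Win A g m) (hy : y ∈ Win A g m) {k : ℤ} (hk : 2 * (m : ℤ) < k) :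
    Commute x (cj g k y) := by
  unfold Win at hx
  induction hx using Subgroup.closure_induction with
  | mem x hx =>
    obtain ⟨i, hi, a, ha, rfl⟩ := hx
    unfold Win at hy
    induction hy using Subgroup.closure_induction with
    | mem y hy =>
      obtain ⟨j, hj, b, hb, rfl⟩ := hy
      rw [cj_cj]
      rw [abs_le] at hi hj
      have h1 := commute_gen h ha hb (k := k + j - i) (by omega)
      have := h1.eq
      show _ * _ = _ * _
      have e : cj g (k + j) b = cj g i (cj g (k + j - i) b) := by rw [cj_cj]; congr 1; ring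
      rw [e, ← cj_mul, ← cj_mul, this]
    | one => rw [cj_one]; exact Commute.one_right _
    | mul x y _ _ h1 h2 => rw [cj_mul]; exact h1.mul_right h2
    | inv x _ h1 => rw [cj_inv]; exact h1.inv_right
  | one => exact Commute.one_left _
  | mul x y _ _ h1 h2 => exact h1.mul_left h2
  | inv x _ h1 => exact h1.inv_left

theorem cj_pow (M : ℤ) (k : ℕ) (x : G) : (g ^ M) ^ k * x * ((g ^ M) ^ k)⁻¹ = cj g (M * k) x := by
  unfold cj
  rw [zpow_mul, zpow_natCast]

theorem HQM.add_Win {φ : G → ℝ} (hφ : HQM φ)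
    (h : ∀ a ∈ A, ∀ b ∈ A, ∀ n : ℕ, 1 ≤ n → Commute a (cj g n b)) {m : ℕ}
    {x y : G} (hx : x ∈ Win A g m) (hy : y ∈ Win A g m) : φ (x * y) = φ x + φ y := by
  have key : ∀ {u v : G}, u ∈ Win A g m → v ∈ Win A g m → ∀ k : ℕ, 1 ≤ k →
      Commute u ((g ^ (2 * (m : ℤ) + 1)) ^ k * v * ((g ^ (2 * (m : ℤ) + 1)) ^ k)⁻¹) := by
    intro u v hu hv k hk
    rw [cj_pow]
    apply commute_Win h hu hv
    have : (1 : ℤ) ≤ k := by exact_mod_cast hk
    nlinarith [this, (Nat.cast_nonneg m : (0 : ℤ) ≤ m)]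
  exact hφ.add_of_translates (key hx hx) (key hy hy) (key hx hy) (key hy hx)

theorem HQM.add_Win' {φ : G → ℝ} (hφ : HQM φ)
    (h : ∀ a ∈ A, ∀ b ∈ A, ∀ n : ℕ, 1 ≤ n → Commute a (cj g n b))
    {x y : G} (hx : ∃ m, x ∈ Win A g m) (hy : ∃ m, y ∈ Win A g m) :
    φ (x * y) = φ x + φ y := by
  obtain ⟨m, hm⟩ := hx
  obtain ⟨n, hn⟩ := hy
  exact hφ.add_Win h (Win_mono A g (le_max_left m n) hm) (Win_mono A g (le_max_right m n) hn)

theorem wmul {x y : G} (hx : ∃ m, x ∈ Win A g m) (hy : ∃ m, y ∈ Win A g m) :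
    ∃ m, x * y ∈ Win A g m := by
  obtain ⟨m, hm⟩ := hx
  obtain ⟨n, hn⟩ := hy
  exact ⟨max m n, Subgroup.mul_mem _ (Win_mono A g (le_max_left m n) hm)
    (Win_mono A g (le_max_right m n) hn)⟩

theorem wcj {x : G} (k : ℤ) (hx : ∃ m, x ∈ Win A g m) : ∃ m, cj g k x ∈ Win A g m := by
  obtain ⟨m, hm⟩ := hx
  exact ⟨_, cj_mem_Win A g k hm⟩

/-- every element is a window element times a power of `g` -/
theorem decomp (hgen : Subgroup.closure ((A : Set G) ∪ {g}) = ⊤) (u : G) :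
    ∃ x : G, (∃ m, x ∈ Win A g m) ∧ ∃ k : ℤ, u = x * g ^ k := by
  have hu : u ∈ Subgroup.closure ((A : Set G) ∪ {g}) := by rw [hgen]; trivial
  induction hu using Subgroup.closure_induction with
  | mem u hu =>
    rcases hu with hu | hu
    · exact ⟨u, ⟨0, mem_Win_of_mem A g hu⟩, 0, by simp⟩
    · rw [Set.mem_singleton_iff] at hu
      subst hu
      exact ⟨1, ⟨0, Subgroup.one_mem _⟩, 1, by simp⟩
  | one => exact ⟨1, ⟨0, Subgroup.one_mem _⟩, 0, by simp⟩
  | mul u v _ _ h1 h2 =>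
    obtain ⟨x, hx, k, rfl⟩ := h1
    obtain ⟨y, hy, l, rfl⟩ := h2
    refine ⟨x * cj g k y, wmul hx (wcj k hy), k + l, ?_⟩
    unfold cj; rw [zpow_add]; group
  | inv u _ h1 =>
    obtain ⟨x, hx, k, rfl⟩ := h1
    obtain ⟨m, hm⟩ := hx
    refine ⟨cj g (-k) x⁻¹, wcj (-k) ⟨m, Subgroup.inv_mem _ hm⟩, -k, ?_⟩
    unfold cj; group

theorem HQM.add_pow {φ : G → ℝ} (hφ : HQM φ)
    (h : ∀ a ∈ A, ∀ b ∈ A, ∀ n : ℕ, 1 ≤ n → Commute a (cj g n b))
    {x : G} (hx : ∃ m, x ∈ Win A g m) (k : ℤ) : φ (x * g ^ k) = φ x + k * φ g := by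
  obtain ⟨D, hD⟩ := hφ.bdd
  have key : ∀ n : ℕ, ∃ w : G, (∃ m, w ∈ Win A g m) ∧ (x * g ^ k) ^ n = w * g ^ (k * n) ∧
      φ w = n * φ x := by
    intro n
    induction n with
    | zero => exact ⟨1, ⟨0, Subgroup.one_mem _⟩, by simp, by simp [hφ.one]⟩
    | succ n ih =>
      obtain ⟨w, hw, e, ew⟩ := ih
      refine ⟨w * cj g (k * n) x, wmul hw (wcj _ hx), ?_, ?_⟩
      · rw [pow_succ, e]
        unfold cj
        push_cast
        rw [mul_add, mul_one, zpow_add]
        group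
      · rw [hφ.add_Win' h hw (wcj _ hx), ew]
        have : φ (cj g (k * n) x) = φ x := hφ.conj _ _
        rw [this]; push_cast; ring
  have : φ (x * g ^ k) - φ x - k * φ g = 0 := by
    apply zero_of_bdd (D := D)
    intro n
    obtain ⟨w, -, e, ew⟩ := key n
    have h1 := hD w (g ^ (k * n))
    rw [← e, hφ.pow, ew, hφ.hom] at h1
    calc (n : ℝ) * |φ (x * g ^ k) - φ x - k * φ g|
        = |(n : ℝ) * φ (x * g ^ k) - n * φ x - ((k * n : ℤ) : ℝ) * φ g| := by
          rw [← abs_of_nonneg (Nat.cast_nonneg n : (0:ℝ) ≤ n), ← abs_mul,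
            abs_of_nonneg (Nat.cast_nonneg n : (0:ℝ) ≤ n)]
          congr 1; push_cast; ring
      _ ≤ D := h1
  linarith

/-- homogeneous quasimorphisms are homomorphisms -/
theorem HQM.isHom {φ : G → ℝ} (hφ : HQM φ) (hgen : Subgroup.closure ((A : Set G) ∪ {g}) = ⊤)
    (h : ∀ a ∈ A, ∀ b ∈ A, ∀ n : ℕ, 1 ≤ n → Commute a (cj g n b)) (u v : G) :
    φ (u * v) = φ u + φ v := by
  obtain ⟨x, hx, k, rfl⟩ := decomp hgen u
  obtain ⟨y, hy, l, rfl⟩ := decomp hgen v
  have e : x * g ^ k * (y * g ^ l) = (x * cj g k y) * g ^ (k + l) := by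
    unfold cj; rw [zpow_add]; group
  rw [e, hφ.add_pow h (wmul hx (wcj k hy)), hφ.add_Win' h hx (wcj k hy), hφ.add_pow h hx,
    hφ.add_pow h hy]
  have : φ (cj g k y) = φ y := hφ.conj _ _
  rw [this]; push_cast; ring

end window

end Pool.Agent.V11191.MC
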