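import Mathlib
import Pool.Agent.V11191.MC.QM
import Pool.Agent.V11191.MC.Mean
import Pool.Agent.V11191.MC.Gens
import Pool.Agent.V11191.MC.End

/-!
A finitely generated non-amenable subgroup of the mapping class group of the plane minus a
Cantor set all of whose homogeneous quasimorphisms are homomorphisms.
-/

set_option autoImplicit false

open Set
open scoped unitInterval

namespace Pool.Agent.V11191.MC

/-- the group of homeomorphisms generated by the four generators -/
noncomputable def HP : Subgroup (Stab CC) := Subgroup.closure {S1, S2, GC, GB}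

/-- its subgroup supported in the cylinder -/
noncomputable def AP : Subgroup (Stab CC) := Subgroup.closure {S1, S2, GC}

theorem AP_le_HP : AP ≤ HP := by
  apply Subgroup.closure_mono
  intro x hx
  simp only [mem_insert_iff, mem_singleton_iff] at hx ⊢
  tauto

theorem AP_le_Sup : AP ≤ Sup := by
  unfold AP
  rw [Subgroup.closure_le]
  rintro x hx
  simp only [mem_insert_iff, mem_singleton_iff] at hx
  rcases hx with rfl | rfl | rfl
  · exact fun z hz => S1_fix hz
  · exact fun z hz => S2_fix hz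
  · exact fun z hz => GC_fix hz

/-- the subgroup of the mapping class group -/
noncomputable def HH : Subgroup (MapE (Surf CC)) := HP.map (cls CC)

theorem quasi (φ : HH → ℝ) (hφ : HQM φ) (u v : HH) : φ (u * v) = φ u + φ v := by
  set f : HP →* HH := (cls CC).subgroupMap HP with hf
  have hfs : Function.Surjective f := (cls CC).subgroupMap_surjective HP
  have hq : HQM (φ ∘ f) := by
    obtain ⟨D, hD⟩ := hφ.bdd
    refine ⟨⟨D, fun g h => ?_⟩, fun g n => ?_⟩
    · simp only [Function.comp_apply, map_mul]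
      exact hD _ _
    · simp only [Function.comp_apply, map_zpow]
      exact hφ.hom _ _
  have hGB : GB ∈ HP := Subgroup.subset_closure (by simp)
  obtain ⟨u, rfl⟩ := hfs u
  obtain ⟨v, rfl⟩ := hfs v
  have key := hq.isHom (A := AP.subgroupOf HP) (g := ⟨GB, hGB⟩) ?_ ?_ u v
  · simpa only [Function.comp_apply, map_mul] using key
  · have h0 : Subgroup.closure ((Subtype.val : HP → Stab CC) ⁻¹' {S1, S2, GC, GB}) = ⊤ :=
      Subgroup.closure_closure_coe_preimage (k := {S1, S2, GC, GB})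
    rw [eq_top_iff, ← h0]
    apply Subgroup.closure_mono
    rintro ⟨x, hx⟩ hx'
    simp only [mem_preimage, mem_insert_iff, mem_singleton_iff] at hx'
    have hA : ∀ y : Stab CC, y ∈ ({S1, S2, GC} : Set (Stab CC)) → y ∈ AP :=
      fun y hy => Subgroup.subset_closure hy
    rcases hx' with h | h | h | h
    · left; exact Subgroup.mem_subgroupOf.2 (hA _ (by simp [h]))
    · left; exact Subgroup.mem_subgroupOf.2 (hA _ (by simp [h]))
    · left; exact Subgroup.mem_subgroupOf.2 (hA _ (by simp [h]))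
    · right; exact Subtype.ext h
  · intro a ha b hb n hn
    have h1 := Sup_comm (AP_le_Sup (Subgroup.mem_subgroupOf.1 ha))
      (AP_le_Sup (Subgroup.mem_subgroupOf.1 hb)) n hn
    apply Subtype.ext
    exact h1

/-- the permutation of the Cantor set -/
noncomputable def prm (F : Stab CC) : Equiv.Perm CC :=
  Equiv.Perm.subtypePerm F.1.toEquiv (p := (· ∈ CC)) F.2

theorem prm_coe (F : Stab CC) (x : CC) : (prm F x : ℂ) = F.1 x := rfl

theorem exists_pick (h : HH) : ∃ F : Stab CC, F ∈ HP ∧ cls CC F = h.1 := h.2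

/-- a representative -/
noncomputable def pick (h : HH) : Stab CC := (exists_pick h).choose

theorem pick_spec (h : HH) : cls CC (pick h) = h.1 := (exists_pick h).choose_spec.2

/-- the action of the mapping classes on the Cantor set -/
noncomputable def act : HH →* Equiv.Perm CC :=
  MonoidHom.mk' (fun h => prm (pick h)) (by
    intro g h
    ext x : 1
    apply Subtype.ext
    show (pick (g * h)).1 x = (pick g).1 ((pick h).1 x)
    have := cls_eq (pick (g * h)) (pick g * pick h) (by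
      rw [map_mul, pick_spec, pick_spec, pick_spec]; rfl) x x.2
    exact this)

theorem act_eq (h : HH) (F : Stab CC) (hF : cls CC F = h.1) (x : CC) :
    (act h x : ℂ) = F.1 x :=
  cls_eq (pick h) F (by rw [pick_spec, hF]) x x.2

/-- the subgroup of classes supported in the cylinder -/
noncomputable def AA : Subgroup HH := (AP.map (cls CC)).subgroupOf HH

theorem mem_AA {F : Stab CC} (hF : F ∈ AP) :
    ∃ h : HH, h ∈ AA ∧ h.1 = cls CC F := by
  refine ⟨⟨cls CC F, Subgroup.mem_map_of_mem _ (AP_le_HP hF)⟩, ?_, rfl⟩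
  exact Subgroup.mem_subgroupOf.2 (Subgroup.mem_map_of_mem _ hF)

theorem nonamen : ¬ Amen HH := by
  obtain ⟨s, hs, hs'⟩ := mem_AA (F := S1) (Subgroup.subset_closure (by simp))
  obtain ⟨t, ht, ht'⟩ := mem_AA (F := S2) (Subgroup.subset_closure (by simp))
  obtain ⟨b, hb, hb'⟩ := mem_AA (F := GC) (Subgroup.subset_closure (by simp))
  have as := act_eq s S1 hs'.symm
  have at' := act_eq t S2 ht'.symm
  have ab := act_eq b GC hb'.symm
  have hu : ∀ x : CC, (x : ℂ) ∈ DD → uu x ∈ cantorSet := fun x hx => uu_mem x.2 hx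
  have hp : (((2 / 3 : ℝ) : ℂ)) ∈ CC := by
    refine ⟨by simp, ?_⟩
    have e : ((2 / 3 : ℝ) : ℂ).re = (2 + 0) / 3 := by rw [Complex.ofReal_re]; norm_num
    rw [e, c_third' (by norm_num)]
    exact zero_mem_cantorSet
  refine not_amen act AA ⟨_, hp⟩ {x | (x : ℂ) ∈ DD} {x | (x : ℂ) ∈ DD ∧ uu x ≤ 1 / 3}
    {x | (x : ℂ) ∈ DD ∧ 2 / 3 ≤ uu x} {x | (x : ℂ) ∈ DD ∧ uu x ≤ 1 / 9}
    {x | (x : ℂ) ∈ DD ∧ 2 / 9 ≤ uu x ∧ uu x ≤ 1 / 3}
    {x | (x : ℂ) ∈ DD ∧ 2 / 3 ≤ uu x ∧ uu x ≤ 7 / 9}
    {x | (x : ℂ) ∈ DD ∧ 8 / 9 ≤ uu x} ?_ ?_ ?_ ?_ ?_ ?_ ?_ ?_ s t b hs ht hb ?_ ?_ ?_ ?_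
  · show ((2 / 3 : ℝ) : ℂ) ∈ DD
    refine ⟨?_, ?_, ?_⟩
    · rw [Complex.ofReal_re]; norm_num
    · rw [Complex.ofReal_re]; norm_num
    · rw [Complex.ofReal_im]; norm_num
  · intro a ha x hx
    obtain ⟨F, hF, hF'⟩ := Subgroup.mem_subgroupOf.1 ha
    show (act a x : ℂ) ∈ DD
    rw [act_eq a F hF', Sup_DD (AP_le_Sup hF)]
    exact hx
  · ext x
    simp only [mem_ofPred_eq, mem_union]
    constructor
    · intro hx
      rcases c_gap (hu x hx) with h | h
      · exact Or.inl ⟨hx, h⟩
      · exact Or.inr ⟨hx, h⟩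
    · rintro (h | h) <;> exact h.1
  · ext x
    simp only [mem_ofPred_eq, mem_union]
    constructor
    · rintro ⟨hx, h1⟩
      rcases c_cases (hu x hx) with ⟨y, hy, e⟩ | ⟨y, hy, e⟩
      · rcases c_gap hy with h | h
        · left; exact ⟨hx, by linarith⟩
        · right; exact ⟨hx, by linarith, h1⟩
      · have := (c01 hy).1
        linarith
    · rintro (h | h)
      · exact ⟨h.1, by linarith [h.2]⟩
      · exact ⟨h.1, h.2.2⟩
  · ext x
    simp only [mem_ofPred_eq, mem_union]
    constructor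
    · rintro ⟨hx, h1⟩
      rcases c_gap2 (hu x hx) with h | h | h
      · linarith
      · left; exact ⟨hx, h⟩
      · right; exact ⟨hx, h⟩
    · rintro (h | h)
      · exact ⟨h.1, h.2.1⟩
      · exact ⟨h.1, by linarith [h.2]⟩
  · rw [Set.disjoint_left]
    rintro x ⟨-, h1⟩ ⟨-, h2⟩
    linarith
  · rw [Set.disjoint_left]
    rintro x ⟨-, h1⟩ ⟨-, h2, -⟩
    linarith
  · rw [Set.disjoint_left]
    rintro x ⟨-, -, h1⟩ ⟨-, h2⟩
    linarith
  · intro x
    simp only [mem_ofPred_eq]
    rw [as, Sup_DD (AP_le_Sup (Subgroup.subset_closure (by simp)))]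
    constructor
    · rintro ⟨h1, h2⟩
      rw [uu_S1 x.2 h1] at h2
      exact ⟨h1, by linarith⟩
    · rintro ⟨h1, h2⟩
      refine ⟨h1, ?_⟩
      rw [uu_S1 x.2 h1]; linarith
  · intro x
    simp only [mem_ofPred_eq]
    rw [ab, Sup_DD (AP_le_Sup (Subgroup.subset_closure (by simp))), uu_GC x.2]
    have e1 : bet (1 / 3) = 1 / 9 := by rw [bet_a (by norm_num) (by norm_num)]; norm_num
    rw [← e1, bet_smono.le_iff_le]
  · intro x
    simp only [mem_ofPred_eq]
    rw [ab, Sup_DD (AP_le_Sup (Subgroup.subset_closure (by simp))), uu_GC x.2]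
    have e1 : bet (2 / 3) = 2 / 9 := by rw [bet_a (by norm_num) (by norm_num)]; norm_num
    have e2 : bet (7 / 9) = 1 / 3 := by rw [bet_b (by norm_num) (by norm_num)]; norm_num
    rw [← e1, ← e2, bet_smono.le_iff_le, bet_smono.le_iff_le]
  · intro x
    simp only [mem_ofPred_eq]
    rw [at', Sup_DD (AP_le_Sup (Subgroup.subset_closure (by simp)))]
    constructor
    · rintro ⟨h1, h2⟩
      have h3 := hu x h1
      rcases c_gap h3 with h | h
      · rw [S2_low x.2 h] at h2
        linarith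
      · rw [uu_S2 x.2 h (c01 h3).2] at h2
        exact ⟨h1, h, by linarith⟩
    · rintro ⟨h1, h2, h3⟩
      refine ⟨h1, ?_⟩
      rw [uu_S2 x.2 h2 (by linarith)]
      linarith

theorem HP_far : ∀ F ∈ HP, ∀ z : ℂ, 5 ≤ ‖z‖ → F.1 z = z := by
  intro F hF
  unfold HP at hF
  have hD : ∀ z : ℂ, 5 ≤ ‖z‖ → z ∉ DD := fun z hz h => absurd (DD_norm h) (not_lt.2 hz)
  induction hF using Subgroup.closure_induction with
  | mem x hx =>
    intro z hz
    simp only [mem_insert_iff, mem_singleton_iff] at hx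
    rcases hx with rfl | rfl | rfl | rfl
    · exact S1_fix (hD z hz)
    · exact S2_fix (hD z hz)
    · exact GC_fix (hD z hz)
    · exact GB_far hz
  | one => intro z _; rfl
  | mul x y _ _ h1 h2 =>
    intro z hz
    have e : (x * y).1 z = x.1 (y.1 z) := rfl
    rw [e, h2 z hz, h1 z hz]
  | inv x _ h1 =>
    intro z hz
    have e : (x⁻¹).1 z = x.1.symm z := rfl
    rw [e, Homeomorph.symm_apply_eq]
    exact (h1 z hz).symm

theorem CC_norm {z : ℂ} (hz : z ∈ CC) : ‖z‖ ≤ 1 := by
  have e : z = ((z.re : ℝ) : ℂ) := Complex.ext (by simp) (by simp [hz.1])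
  rw [e, Complex.norm_real, Real.norm_eq_abs, abs_of_nonneg (c01 hz.2).1]
  exact (c01 hz.2).2

theorem orient (F : Stab CC) (hF : ∀ z : ℂ, 5 ≤ ‖z‖ → F.1 z = z) : OrPres (resH CC F) := by
  have hball : ∀ z ∈ Metric.closedBall (10 : ℂ) 1, 5 ≤ ‖z‖ := by
    intro z hz
    rw [Metric.mem_closedBall, dist_eq_norm] at hz
    have h1 := norm_sub_norm_le (10 : ℂ) z
    rw [norm_sub_rev] at h1
    have h2 : ‖(10 : ℂ)‖ = 10 := by simp
    linarith
  refine ⟨10, 1, one_pos, fun z hz hC => ?_, fun p => (p.2 : ℂ), by fun_prop, fun t => ?_,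
    fun z => rfl, fun z => ?_⟩
  · have h1 := hball z hz
    have h2 := CC_norm hC
    linarith
  · exact Subtype.val_injective
  · rw [resH_apply]
    exact (hF z (hball z z.2)).symm

theorem HH_orient (h : MapE (Surf CC)) (hh : h ∈ HH) :
    ∃ f : Surf CC ≃ₜ Surf CC, OrPres f ∧ (QuotientGroup.mk f : MapE (Surf CC)) = h := by
  obtain ⟨F, hF, rfl⟩ := hh
  exact ⟨resH CC F, orient F (HP_far F hF), rfl⟩

theorem HH_fg : HH.FG := by
  rw [Subgroup.fg_iff]
  refine ⟨cls CC '' {S1, S2, GC, GB}, ?_, ?_⟩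
  · rw [HH, HP, MonoidHom.map_closure]
  · apply Set.Finite.image
    simp

/-- the Cantor set on the real axis is a Cantor space -/
noncomputable def CC_homeo : CC ≃ₜ cantorSet where
  toFun z := ⟨z.1.re, z.2.2⟩
  invFun x := ⟨(x.1 : ℂ), by simp, by simp⟩
  left_inv z := by
    apply Subtype.ext
    exact Complex.ext (by simp) (by simp [z.2.1])
  right_inv x := by
    apply Subtype.ext
    simp
  continuous_toFun := by fun_prop
  continuous_invFun := by fun_prop

theorem CC_cantor : Nonempty (CC ≃ₜ (ℕ → Bool)) :=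
  ⟨CC_homeo.trans cantorSetHomeomorphNatToBool⟩

end Pool.Agent.V11191.MC
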